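import Mathlib

/-!
# Automorphism-to-strict-endomorphism ratios of graphs: the limiting set is `[0,1]`
-/

open Filter Topology

namespace Pool.Agent.Results.MP_e2735d_co.LimitingSet

/-- A finite undirected graph without multiple edges; loops are permitted. -/
structure LGraph where
  V : Type
  fin : Finite V
  adj : V → V → Prop
  symm : ∀ x y, adj x y → adj y x

/-- Strict endomorphisms. -/
def IsEnd (G : LGraph) (f : G.V → G.V) : Prop :=
  ∀ x y, G.adj x y → G.adj (f x) (f y)

/-- Automorphisms. -/
def IsAut (G : LGraph) (f : G.V → G.V) : Prop :=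
  Function.Bijective f ∧ ∀ x y, G.adj x y ↔ G.adj (f x) (f y)

/-- The ratio `|Aut(G)| / |End_s(G)|`. -/
noncomputable def q (G : LGraph) : ℝ :=
  (Nat.card {f : G.V → G.V // IsAut G f} : ℝ) / Nat.card {f : G.V → G.V // IsEnd G f}

/-- The limiting set. -/
def Lam : Set ℝ :=
  {l | ∃ G : ℕ → LGraph, Tendsto (fun k => Nat.card (G k).V) atTop atTop ∧
    Tendsto (fun k => q (G k)) atTop (𝓝 l)}

/-! ### The graphs -/

/-- The unlooped vertices. -/
abbrev C (a k : ℕ) := Fin (k + 1) ⊕ Fin a

/-- adjacency -/
def adj {a k : ℕ} : C a k ⊕ Fin k → C a k ⊕ Fin k → Prop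
  | .inl x, .inl y => x ≠ y
  | .inl x, .inr i => x = .inl i.castSucc ∨ x = .inl i.succ
  | .inr i, .inl x => x = .inl i.castSucc ∨ x = .inl i.succ
  | .inr i, .inr j => i = j

/-- the graph -/
def gr (a k : ℕ) : LGraph where
  V := C a k ⊕ Fin k
  fin := inferInstance
  adj := adj
  symm := by
    rintro (x | i) (y | j) h
    · exact fun e => h e.symm
    · exact h
    · exact h
    · exact Eq.symm h

/-- `f` maps unlooped vertices to unlooped vertices -/
def CaseA {a k : ℕ} (f : C a k ⊕ Fin k → C a k ⊕ Fin k) : Prop := ∀ x, ∃ y, f (.inl x) = .inl y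

/-- the automorphism attached to a flag and a permutation -/
def mk {a k : ℕ} (b : Bool) (τ : Equiv.Perm (Fin a)) : C a k ⊕ Fin k → C a k ⊕ Fin k
  | .inl (.inl i) => .inl (.inl (if b then i else i.rev))
  | .inl (.inr j) => .inl (.inr (τ j))
  | .inr i => .inr (if b then i else i.rev)

lemma mk_inj {a k : ℕ} (b : Bool) (τ : Equiv.Perm (Fin a)) :
    Function.Injective (mk (k := k) b τ) := by
  rintro ((i | j) | w) ((i' | j') | w') h
  all_goals cases b <;> simp [mk] at h ⊢ <;> exact h

lemma mk_adj {a k : ℕ} (b : Bool) (τ : Equiv.Perm (Fin a)) (x y : C a k ⊕ Fin k) :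
    adj x y ↔ adj (mk b τ x) (mk b τ y) := by
  rcases x with (i | j) | w <;> rcases y with (i' | j') | w'
  all_goals cases b <;> simp [mk, adj]
  · rw [← Fin.rev_succ, ← Fin.rev_castSucc, Fin.rev_inj, Fin.rev_inj]
    tauto
  · rw [← Fin.rev_succ, ← Fin.rev_castSucc, Fin.rev_inj, Fin.rev_inj]
    tauto

lemma mk_isAut {a k : ℕ} (b : Bool) (τ : Equiv.Perm (Fin a)) : IsAut (gr a k) (mk b τ) := by
  refine ⟨?_, mk_adj b τ⟩
  haveI := (gr a k).fin
  exact Finite.injective_iff_bijective.mp (mk_inj b τ)

lemma aut_caseA {a k : ℕ} {f : C a k ⊕ Fin k → C a k ⊕ Fin k} (h : IsAut (gr a k) f) :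
    IsEnd (gr a k) f ∧ CaseA f := by
  refine ⟨fun x y hxy => (h.2 x y).mp hxy, fun x => ?_⟩
  rcases hf : f (.inl x) with y | i
  · exact ⟨y, rfl⟩
  · have := (h.2 (.inl x) (.inl x)).mpr (by rw [hf]; exact rfl)
    exact absurd rfl this

lemma loop_image {a k : ℕ} {f : C a k ⊕ Fin k → C a k ⊕ Fin k} (h : IsEnd (gr a k) f) (i : Fin k) :
    ∃ j, f (.inr i) = .inr j := by
  rcases hf : f (.inr i) with y | j
  · have : adj (f (.inr i)) (f (.inr i)) := h (.inr i) (.inr i) rfl
    rw [hf] at this
    exact absurd rfl this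
  · exact ⟨j, rfl⟩

/-- path rigidity -/
lemma path_rigid (k : ℕ) (hk : 1 ≤ k) (s : ℕ → ℤ) (h0 : ∀ i ≤ k, 0 ≤ s i ∧ s i ≤ k)
    (h1 : ∀ i < k, s (i + 1) = s i + 1 ∨ s (i + 1) = s i - 1)
    (h2 : ∀ i, i + 2 ≤ k → s (i + 2) ≠ s i) :
    (∀ i ≤ k, s i = i) ∨ (∀ i ≤ k, s i = k - i) := by
  rcases h1 0 (by omega) with h | h
  · left
    have key : ∀ i < k, s (i + 1) = s i + 1 := by
      intro i
      induction i with
      | zero => intro _; exact h
      | succ i ih =>
        intro hi
        have e1 := ih (by omega)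
        have e2 := h2 i (by omega)
        rcases h1 (i + 1) hi with e3 | e3
        · exact e3
        · exfalso; apply e2; rw [e3, e1]; ring
    have key2 : ∀ i ≤ k, s i = s 0 + i := by
      intro i
      induction i with
      | zero => intro _; simp
      | succ i ih =>
        intro hi
        rw [key i (by omega), ih (by omega)]
        push_cast; ring
    have e1 := key2 k le_rfl
    have e2 := h0 0 (by omega)
    have e3 := h0 k le_rfl
    intro i hi
    rw [key2 i hi]
    linarith [e2.1, e3.2]
  · right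
    have key : ∀ i < k, s (i + 1) = s i - 1 := by
      intro i
      induction i with
      | zero => intro _; exact h
      | succ i ih =>
        intro hi
        have e1 := ih (by omega)
        have e2 := h2 i (by omega)
        rcases h1 (i + 1) hi with e3 | e3
        · exfalso; apply e2; rw [e3, e1]; ring
        · exact e3
    have key2 : ∀ i ≤ k, s i = s 0 - i := by
      intro i
      induction i with
      | zero => intro _; simp
      | succ i ih =>
        intro hi
        rw [key i (by omega), ih (by omega)]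
        push_cast; ring
    have e1 := key2 k le_rfl
    have e2 := h0 0 (by omega)
    have e3 := h0 k le_rfl
    intro i hi
    rw [key2 i hi]
    linarith [e2.2, e3.1]

lemma caseA_surj {a k : ℕ} (hk : 1 ≤ k) {f : C a k ⊕ Fin k → C a k ⊕ Fin k}
    (h : IsEnd (gr a k) f) (hA : CaseA f) : ∃ b τ, mk b τ = f := by
  choose φ hφ using hA
  choose ψ hψ using loop_image h
  have hinj : Function.Injective φ := by
    intro x y hxy
    by_contra hne
    have h1 : adj (f (.inl x)) (f (.inl y)) := h (.inl x) (.inl y) hne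
    rw [hφ, hφ, hxy] at h1
    exact h1 rfl
  have hc : ∀ i : Fin k, φ (.inl i.castSucc) = .inl (ψ i).castSucc ∨
      φ (.inl i.castSucc) = .inl (ψ i).succ := by
    intro i
    have h1 : adj (f (.inl (.inl i.castSucc))) (f (.inr i)) :=
      h (.inl (.inl i.castSucc)) (.inr i) (Or.inl rfl)
    rw [hφ, hψ] at h1
    exact h1
  have hs : ∀ i : Fin k, φ (.inl i.succ) = .inl (ψ i).castSucc ∨
      φ (.inl i.succ) = .inl (ψ i).succ := by
    intro i
    have h1 : adj (f (.inl (.inl i.succ))) (f (.inr i)) :=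
      h (.inl (.inl i.succ)) (.inr i) (Or.inr rfl)
    rw [hφ, hψ] at h1
    exact h1
  have hσ : ∀ i : Fin (k + 1), ∃ t : Fin (k + 1), φ (.inl i) = .inl t := by
    intro i
    rcases Fin.eq_zero_or_eq_succ i with hi | ⟨j, hi⟩
    · obtain ⟨k', rfl⟩ : ∃ k', k = k' + 1 := ⟨k - 1, by omega⟩
      have : i = (0 : Fin (k' + 1)).castSucc := by rw [hi]; rfl
      rw [this]
      rcases hc 0 with h1 | h1
      · exact ⟨_, h1⟩
      · exact ⟨_, h1⟩
    · rw [hi]
      rcases hs j with h1 | h1
      · exact ⟨_, h1⟩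
      · exact ⟨_, h1⟩
  choose σ hσ using hσ
  have hσinj : Function.Injective σ := by
    intro i j hij
    have : φ (.inl i) = φ (.inl j) := by rw [hσ, hσ, hij]
    have := hinj this
    exact Sum.inl_injective this
  have hc' : ∀ i : Fin k, σ i.castSucc = (ψ i).castSucc ∨ σ i.castSucc = (ψ i).succ := by
    intro i
    rcases hc i with h1 | h1 <;> rw [hσ] at h1
    · left; exact Sum.inl_injective h1
    · right; exact Sum.inl_injective h1
  have hs' : ∀ i : Fin k, σ i.succ = (ψ i).castSucc ∨ σ i.succ = (ψ i).succ := by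
    intro i
    rcases hs i with h1 | h1 <;> rw [hσ] at h1
    · left; exact Sum.inl_injective h1
    · right; exact Sum.inl_injective h1
  have hne : ∀ i : Fin k, σ i.castSucc ≠ σ i.succ := by
    intro i hi
    have := hσinj hi
    exact absurd this (Fin.castSucc_lt_succ (i := i)).ne
  -- the path
  set s : ℕ → ℤ := fun i => if hi : i < k + 1 then ((σ ⟨i, hi⟩ : ℕ) : ℤ) else 0 with hsdef
  have sval : ∀ i (hi : i < k + 1), s i = ((σ ⟨i, hi⟩ : ℕ) : ℤ) := by
    intro i hi
    simp only [hsdef, hi, dif_pos]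
  have hrig := path_rigid k hk s (by
      intro i hi
      rw [sval i (by omega)]
      have := (σ ⟨i, by omega⟩).isLt
      omega) (by
      intro i hi
      rw [sval i (by omega), sval (i + 1) (by omega)]
      have e1 : (⟨i, by omega⟩ : Fin (k + 1)) = (⟨i, hi⟩ : Fin k).castSucc := rfl
      have e2 : (⟨i + 1, by omega⟩ : Fin (k + 1)) = (⟨i, hi⟩ : Fin k).succ := rfl
      rw [e1, e2]
      have n := hne ⟨i, hi⟩
      rcases hc' ⟨i, hi⟩ with h1 | h1 <;> rcases hs' ⟨i, hi⟩ with h2 | h2 <;> rw [h1, h2] at n ⊢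
      · exact absurd rfl n
      · left; simp
      · right; simp
      · exact absurd rfl n) (by
      intro i hi hh
      rw [sval i (by omega), sval (i + 2) (by omega)] at hh
      have h1 : σ ⟨i + 2, by omega⟩ = σ ⟨i, by omega⟩ := Fin.ext (by exact_mod_cast hh)
      have h2 := hσinj h1
      have h3 := congrArg Fin.val h2
      simp at h3)
  have hb : ∃ b : Bool, (∀ i, σ i = if b then i else i.rev) ∧
      (∀ i, ψ i = if b then i else i.rev) := by
    rcases hrig with hr | hr
    · refine ⟨true, ?_, ?_⟩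
      · intro i
        have h1 := hr i (by have := i.isLt; omega)
        rw [sval i i.isLt] at h1
        simp only [if_true]
        exact Fin.ext (by exact_mod_cast h1)
      · intro i
        simp only [if_true]
        have h1 := hr i (by have := i.isLt; omega)
        have h2 := hr (i + 1) (by have := i.isLt; omega)
        rw [sval i (by have := i.isLt; omega)] at h1
        rw [sval (i + 1) (by have := i.isLt; omega)] at h2
        have e1 : (⟨i, by have := i.isLt; omega⟩ : Fin (k + 1)) = i.castSucc := rfl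
        have e2 : (⟨i + 1, by have := i.isLt; omega⟩ : Fin (k + 1)) = i.succ := rfl
        rw [e1] at h1
        rw [e2] at h2
        apply Fin.ext
        rcases hc' i with h3 | h3 <;> rcases hs' i with h4 | h4 <;>
          rw [h3] at h1 <;> rw [h4] at h2 <;> simp at h1 h2 <;> omega
    · refine ⟨false, ?_, ?_⟩
      · intro i
        have h1 := hr i (by have := i.isLt; omega)
        rw [sval i i.isLt] at h1
        have h5 : ((i.rev : ℕ) : ℤ) = k - i := by
          rw [Fin.val_rev]
          have := i.isLt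
          omega
        simp only [Bool.false_eq_true, if_false]
        apply Fin.ext
        have : ((σ i : ℕ) : ℤ) = ((i.rev : ℕ) : ℤ) := by rw [h5]; exact h1
        exact_mod_cast this
      · intro i
        simp only [Bool.false_eq_true, if_false]
        have h1 := hr i (by have := i.isLt; omega)
        have h2 := hr (i + 1) (by have := i.isLt; omega)
        rw [sval i (by have := i.isLt; omega)] at h1
        rw [sval (i + 1) (by have := i.isLt; omega)] at h2
        have e1 : (⟨i, by have := i.isLt; omega⟩ : Fin (k + 1)) = i.castSucc := rfl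
        have e2 : (⟨i + 1, by have := i.isLt; omega⟩ : Fin (k + 1)) = i.succ := rfl
        rw [e1] at h1
        rw [e2] at h2
        have h5 := i.isLt
        have h6 : (i.rev : ℕ) = k - (i + 1) := Fin.val_rev i
        apply Fin.ext
        rw [h6]
        rcases hc' i with h3 | h3 <;> rcases hs' i with h4 | h4 <;>
          rw [h3] at h1 <;> rw [h4] at h2 <;> simp at h1 h2 <;> omega
  obtain ⟨b, hb1, hb2⟩ := hb
  have hfree : ∀ r : Fin a, ∃ t : Fin a, φ (.inr r) = .inr t := by
    intro r
    rcases hr : φ (.inr r) with t | t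
    · exfalso
      obtain ⟨i, hi⟩ := (Finite.injective_iff_surjective.mp hσinj) t
      have h1 : φ (.inr r) = φ (.inl i) := by rw [hr, hσ, hi]
      have := hinj h1
      cases this
    · exact ⟨t, rfl⟩
  choose τ hτ using hfree
  have hτinj : Function.Injective τ := by
    intro i j hij
    have : φ (.inr i) = φ (.inr j) := by rw [hτ, hτ, hij]
    exact Sum.inr_injective (hinj this)
  refine ⟨b, Equiv.ofBijective τ (Finite.injective_iff_bijective.mp hτinj), ?_⟩
  funext x
  rcases x with (i | j) | w
  · rw [hφ, hσ, hb1]; rfl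
  · rw [hφ, hτ]; rfl
  · rw [hψ, hb2]; rfl

lemma card_aut (a k : ℕ) (hk : 1 ≤ k) :
    Nat.card {f : (gr a k).V → (gr a k).V // IsAut (gr a k) f} = 2 * a.factorial := by
  have hbij : Function.Bijective (fun p : Bool × Equiv.Perm (Fin a) =>
      (⟨mk p.1 p.2, mk_isAut p.1 p.2⟩ : {f : (gr a k).V → (gr a k).V // IsAut (gr a k) f})) := by
    constructor
    · rintro ⟨b, τ⟩ ⟨b', τ'⟩ h
      have h1 : mk (k := k) b τ = mk b' τ' := congrArg Subtype.val h
      have h2 : b = b' := by
        have := congrFun h1 (.inl (.inl 0))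
        cases b <;> cases b' <;> simp [mk] at this ⊢
        · omega
        · omega
      have h3 : τ = τ' := by
        ext j
        have := congrFun h1 (.inl (.inr j))
        simp [mk] at this
        rw [this]
      rw [h2, h3]
    · rintro ⟨f, hf⟩
      obtain ⟨b, τ, hbt⟩ := caseA_surj hk (aut_caseA hf).1 (aut_caseA hf).2
      exact ⟨(b, τ), Subtype.ext hbt⟩
  rw [← Nat.card_congr (Equiv.ofBijective _ hbij), Nat.card_prod]
  simp [Nat.card_eq_fintype_card, Fintype.card_perm]

/-! ### The collapsing endomorphisms -/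

open Classical in
/-- the endomorphism collapsing everything to the star of a looped vertex -/
noncomputable def mkB {a k : ℕ} (i : Fin k) (x y : Option (C a k)) :
    C a k ⊕ Fin k → C a k ⊕ Fin k
  | .inl z => if x = some z then .inl (.inl i.castSucc)
      else if y = some z then .inl (.inl i.succ) else .inr i
  | .inr _ => .inr i

open Classical in
lemma mkB_inl {a k : ℕ} (i : Fin k) (x y : Option (C a k)) (z : C a k) :
    mkB i x y (.inl z) = if x = some z then .inl (.inl i.castSucc)
      else if y = some z then .inl (.inl i.succ) else .inr i := rfl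

lemma mkB_inr {a k : ℕ} (i : Fin k) (x y : Option (C a k)) (w : Fin k) :
    mkB i x y (.inr w) = .inr i := rfl

lemma cs_ne {k : ℕ} (i : Fin k) : i.castSucc ≠ i.succ := (Fin.castSucc_lt_succ (i := i)).ne

lemma mkB_isEnd {a k : ℕ} (i : Fin k) (x y : Option (C a k)) :
    IsEnd (gr a k) (mkB i x y) := by
  have hcs := cs_ne i
  rintro (z | w) (z' | w') h
  · have h : z ≠ z' := h
    show adj (mkB i x y (.inl z)) (mkB i x y (.inl z'))
    rw [mkB_inl, mkB_inl]
    split_ifs with h1 h2 h3 h4 h5 h6 h7 h8
    · rw [h1] at h2; exact absurd (Option.some_injective _ h2) h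
    · simp only [adj]; simpa using hcs
    · left; rfl
    · simp only [adj]; simpa using hcs.symm
    · rw [h4] at h6; exact absurd (Option.some_injective _ h6) h
    · right; rfl
    · left; rfl
    · right; rfl
    · rfl
  · show adj (mkB i x y (.inl z)) (mkB i x y (.inr w'))
    rw [mkB_inl, mkB_inr]
    split_ifs
    · left; rfl
    · right; rfl
    · rfl
  · show adj (mkB i x y (.inr w)) (mkB i x y (.inl z'))
    rw [mkB_inl, mkB_inr]
    split_ifs
    · left; rfl
    · right; rfl
    · rfl
  · rfl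

lemma mkB_not_caseA {a k : ℕ} (hk : 2 ≤ k) (i : Fin k) (x y : Option (C a k)) :
    ¬ CaseA (mkB i x y) := by
  intro hA
  have hall : ∀ z : C a k, x = some z ∨ y = some z := by
    intro z
    obtain ⟨t, ht⟩ := hA z
    rw [mkB_inl] at ht
    by_contra hcon
    push Not at hcon
    rw [if_neg hcon.1, if_neg hcon.2] at ht
    cases ht
  have h0 := hall (.inl ⟨0, by omega⟩)
  have h1 := hall (.inl ⟨1, by omega⟩)
  have h2 := hall (.inl ⟨2, by omega⟩)
  rcases h0 with h0 | h0 <;> rcases h1 with h1 | h1 <;> rcases h2 with h2 | h2 <;>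
    simp_all

lemma mkB_some_left {a k : ℕ} (i : Fin k) (x y : Option (C a k)) (z : C a k) :
    mkB i x y (.inl z) = .inl (.inl i.castSucc) ↔ x = some z := by
  have hcs := cs_ne i
  rw [mkB_inl]
  split_ifs with h1 h2
  · simp [h1]
  · simp [h1, hcs.symm]
  · simp [h1]

lemma mkB_some_right {a k : ℕ} (i : Fin k) (x y : Option (C a k)) (hxy : x = y → x = none)
    (z : C a k) : mkB i x y (.inl z) = .inl (.inl i.succ) ↔ y = some z := by
  have hcs := cs_ne i
  rw [mkB_inl]
  split_ifs with h1 h2
  · simp only [Sum.inl.injEq, hcs, false_iff]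
    intro h2
    have := hxy (h1.trans h2.symm)
    rw [h1] at this
    cases this
  · simp [h2]
  · simp [h2]

/-- parameters -/
abbrev Par (a k : ℕ) := {p : Option (C a k) × Option (C a k) // p.1 = p.2 → p.1 = none}

lemma exists_option {α : Type} (p : α → Prop) (h : ∀ z z', p z → p z' → z = z') :
    ∃ x : Option α, ∀ z, x = some z ↔ p z := by
  by_cases hp : ∃ z, p z
  · obtain ⟨z, hz⟩ := hp
    refine ⟨some z, ?_⟩
    intro z'
    constructor
    · intro e
      rw [← Option.some_injective _ e]; exact hz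
    · intro h'
      rw [h z z' hz h']
  · push Not at hp
    refine ⟨none, ?_⟩
    intro z
    constructor
    · intro e
      cases e
    · intro h'
      exact absurd h' (hp z)

lemma caseB_surj {a k : ℕ} {f : C a k ⊕ Fin k → C a k ⊕ Fin k}
    (h : IsEnd (gr a k) f) (hA : ¬ CaseA f) :
    ∃ (i : Fin k) (x y : Option (C a k)), (x = y → x = none) ∧ mkB i x y = f := by
  unfold CaseA at hA
  push Not at hA
  obtain ⟨z0, hz0⟩ := hA
  obtain ⟨i, hi⟩ : ∃ i, f (.inl z0) = .inr i := by
    rcases hf : f (.inl z0) with t | i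
    · exact absurd hf (hz0 t)
    · exact ⟨i, rfl⟩
  have hcs := cs_ne i
  have three : ∀ z, f (.inl z) = .inr i ∨ f (.inl z) = .inl (.inl i.castSucc) ∨
      f (.inl z) = .inl (.inl i.succ) := by
    intro z
    by_cases hz : z = z0
    · rw [hz]; exact Or.inl hi
    · have h1 : adj (f (.inl z)) (f (.inl z0)) := h (.inl z) (.inl z0) hz
      rw [hi] at h1
      rcases hf : f (.inl z) with t | j
      · rw [hf] at h1
        rcases h1 with h1 | h1
        · right; left; rw [h1]
        · right; right; rw [h1]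
      · rw [hf] at h1
        left
        have h1 : j = i := h1
        rw [h1]
  have inj : ∀ z z' t, f (.inl z) = .inl t → f (.inl z') = .inl t → z = z' := by
    intro z z' t h1 h2
    by_contra hne
    have h3 : adj (f (.inl z)) (f (.inl z')) := h (.inl z) (.inl z') hne
    rw [h1, h2] at h3
    exact h3 rfl
  have hr : ∀ j, f (.inr j) = .inr i := by
    intro j
    obtain ⟨m, hm⟩ := loop_image h j
    rw [hm]
    have hjne := cs_ne j
    have a1 : adj (f (.inl (.inl j.castSucc))) (f (.inr j)) :=
      h (.inl (.inl j.castSucc)) (.inr j) (Or.inl rfl)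
    have a2 : adj (f (.inl (.inl j.succ))) (f (.inr j)) :=
      h (.inl (.inl j.succ)) (.inr j) (Or.inr rfl)
    rw [hm] at a1 a2
    rcases three (.inl j.castSucc) with h1 | h1
    · rw [h1] at a1
      have a1 : i = m := a1
      rw [a1]
    · rcases three (.inl j.succ) with h2 | h2
      · rw [h2] at a2
        have a2 : i = m := a2
        rw [a2]
      · have hne : f (.inl (.inl j.castSucc)) ≠ f (.inl (.inl j.succ)) := by
          intro e
          rcases h2 with h2 | h2
          · have := inj _ _ _ (e.trans h2) h2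
            exact hjne (Sum.inl_injective this)
          · have := inj _ _ _ (e.trans h2) h2
            exact hjne (Sum.inl_injective this)
        have hv : (i : ℕ) = m := by
          rcases h1 with h1 | h1 <;> rcases h2 with h2 | h2
          · exact absurd (h1.trans h2.symm) hne
          · rw [h1] at a1
            rw [h2] at a2
            rcases a1 with a1 | a1 <;> rcases a2 with a2 | a2 <;>
              (have b1 := congrArg Fin.val (Sum.inl_injective a1)
               have b2 := congrArg Fin.val (Sum.inl_injective a2)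
               simp at b1 b2
               omega)
          · rw [h1] at a1
            rw [h2] at a2
            rcases a1 with a1 | a1 <;> rcases a2 with a2 | a2 <;>
              (have b1 := congrArg Fin.val (Sum.inl_injective a1)
               have b2 := congrArg Fin.val (Sum.inl_injective a2)
               simp at b1 b2
               omega)
          · exact absurd (h1.trans h2.symm) hne
        rw [Fin.ext hv]
  obtain ⟨x, hx⟩ := exists_option (fun z => f (.inl z) = .inl (.inl i.castSucc))
    (fun z z' => inj z z' _)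
  obtain ⟨y, hy⟩ := exists_option (fun z => f (.inl z) = .inl (.inl i.succ))
    (fun z z' => inj z z' _)
  refine ⟨i, x, y, ?_, ?_⟩
  · intro hxy
    rcases hxe : x with _ | z
    · rfl
    · exfalso
      have h1 := (hx z).mp hxe
      have h2 := (hy z).mp (hxy ▸ hxe)
      rw [h1] at h2
      exact hcs (Sum.inl_injective (Sum.inl_injective h2))
  · funext v
    rcases v with z | w
    · rw [mkB_inl]
      split_ifs with h1 h2
      · exact ((hx z).mp h1).symm
      · exact ((hy z).mp h2).symm
      · rcases three z with h3 | h3 | h3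
        · exact h3.symm
        · exact absurd ((hx z).mpr h3) h1
        · exact absurd ((hy z).mpr h3) h2
    · exact (hr w).symm

lemma card_B (a k : ℕ) (hk : 2 ≤ k) :
    Nat.card {f : C a k ⊕ Fin k → C a k ⊕ Fin k // IsEnd (gr a k) f ∧ ¬ CaseA f} =
      k * Nat.card (Par a k) := by
  have hbij : Function.Bijective (fun p : Fin k × Par a k =>
      (⟨mkB p.1 p.2.1.1 p.2.1.2, mkB_isEnd _ _ _, mkB_not_caseA hk _ _ _⟩ :
        {f : C a k ⊕ Fin k → C a k ⊕ Fin k // IsEnd (gr a k) f ∧ ¬ CaseA f})) := by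
    constructor
    · rintro ⟨i, ⟨⟨x, y⟩, hxy⟩⟩ ⟨i', ⟨⟨x', y'⟩, hxy'⟩⟩ h
      have h1 : mkB i x y = mkB i' x' y' := congrArg Subtype.val h
      have h2 : i = i' := by
        have := congrFun h1 (.inr i)
        exact Sum.inr_injective this
      subst h2
      have h3 : x = x' := by
        apply Option.ext
        intro z
        have e1 := mkB_some_left i x y z
        have e2 := mkB_some_left i x' y' z
        rw [h1] at e1
        exact e1.symm.trans e2
      have h4 : y = y' := by
        apply Option.ext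
        intro z
        have e1 := mkB_some_right i x y hxy z
        have e2 := mkB_some_right i x' y' hxy' z
        rw [h1] at e1
        exact e1.symm.trans e2
      subst h3 h4
      rfl
    · rintro ⟨f, hf, hA⟩
      obtain ⟨i, x, y, hxy, e⟩ := caseB_surj hf hA
      exact ⟨(i, ⟨(x, y), hxy⟩), Subtype.ext e⟩
  rw [← Nat.card_congr (Equiv.ofBijective _ hbij), Nat.card_prod]
  simp [Nat.card_eq_fintype_card]

open Classical in
lemma card_par (a k : ℕ) : Nat.card (Par a k) + (k + 1 + a) = (k + 1 + a + 1) ^ 2 := by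
  have e := Nat.card_congr (Equiv.sumCompl
    (fun p : Option (C a k) × Option (C a k) => p.1 = p.2 → p.1 = none))
  rw [Nat.card_sum] at e
  have h1 : Nat.card (Option (C a k) × Option (C a k)) = (k + 1 + a + 1) ^ 2 := by
    rw [Nat.card_prod]
    simp [Nat.card_eq_fintype_card]
    ring
  have h2 : Nat.card {p : Option (C a k) × Option (C a k) // ¬ (p.1 = p.2 → p.1 = none)} =
      k + 1 + a := by
    have : Function.Bijective (fun z : C a k =>
        (⟨(some z, some z), by simp⟩ :
          {p : Option (C a k) × Option (C a k) // ¬ (p.1 = p.2 → p.1 = none)})) := by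
      constructor
      · intro z z' h
        have h := congrArg (fun t => t.1.1) h
        exact Option.some_injective _ h
      · rintro ⟨⟨x, y⟩, h⟩
        push Not at h
        obtain ⟨h1, h2⟩ := h
        simp only at h1 h2
        subst h1
        obtain ⟨z, rfl⟩ := Option.ne_none_iff_exists'.mp h2
        exact ⟨z, rfl⟩
    rw [← Nat.card_congr (Equiv.ofBijective _ this)]
    simp [Nat.card_eq_fintype_card]
  rw [h1, h2] at e
  exact e

open Classical in
lemma card_end (a k : ℕ) (hk : 2 ≤ k) :
    Nat.card {f : (gr a k).V → (gr a k).V // IsEnd (gr a k) f} =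
      2 * a.factorial + k * Nat.card (Par a k) := by
  haveI : Finite (gr a k).V := (gr a k).fin
  haveI : Finite ((gr a k).V → (gr a k).V) := Pi.finite
  have e := Nat.card_congr (Equiv.sumCompl
    (fun g : {f : (gr a k).V → (gr a k).V // IsEnd (gr a k) f} => CaseA g.1))
  rw [← e, Nat.card_sum]
  congr 1
  · rw [← card_aut a k (by omega)]
    refine Nat.card_congr ((Equiv.subtypeSubtypeEquivSubtypeInter _ _).trans
      (Equiv.subtypeEquivRight ?_))
    intro f
    constructor
    · rintro ⟨h1, h2⟩
      obtain ⟨b, τ, rfl⟩ := caseA_surj (by omega) h1 h2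
      exact mk_isAut b τ
    · exact fun h => aut_caseA h
  · rw [← card_B a k hk]
    exact Nat.card_congr (Equiv.subtypeSubtypeEquivSubtypeInter _ (fun f => ¬ CaseA f))

lemma q_eq (a k : ℕ) (hk : 2 ≤ k) : q (gr a k) =
    1 / (1 + (k : ℝ) * (((a : ℝ) + 1 + k) ^ 2 + ((a : ℝ) + 1 + k) + 1) / (2 * a.factorial)) := by
  unfold q
  rw [card_end a k hk, card_aut a k (by omega)]
  have h1 : (Nat.card (Par a k) : ℝ) = ((a : ℝ) + 1 + k) ^ 2 + ((a : ℝ) + 1 + k) + 1 := by
    have h := card_par a k
    have h2 : (Nat.card (Par a k) : ℝ) + (k + 1 + a) = (k + 1 + a + 1) ^ 2 := by exact_mod_cast h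
    linear_combination h2
  have h3 : (0 : ℝ) < a.factorial := by exact_mod_cast a.factorial_pos
  push_cast
  rw [h1]
  have h4 : (0 : ℝ) ≤ (k : ℝ) * (((a : ℝ) + 1 + k) ^ 2 + ((a : ℝ) + 1 + k) + 1) := by positivity
  rw [div_eq_div_iff (by positivity) (by positivity)]
  field_simp

/-- the real number `(2 c a!)^(1/3)` -/
noncomputable def xx (c : ℝ) (a : ℕ) : ℝ := (2 * c * a.factorial) ^ (1 / 3 : ℝ)

lemma xx_pos {c : ℝ} (hc : 0 < c) (a : ℕ) : 0 < xx c a := by
  have h3 : (0 : ℝ) < a.factorial := by exact_mod_cast a.factorial_pos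
  unfold xx
  positivity

lemma xx_cube {c : ℝ} (hc : 0 < c) (a : ℕ) : xx c a ^ 3 = 2 * c * a.factorial := by
  have h3 : (0 : ℝ) < a.factorial := by exact_mod_cast a.factorial_pos
  unfold xx
  rw [← Real.rpow_natCast, ← Real.rpow_mul (by positivity)]
  norm_num

lemma succ_div_xx {c : ℝ} (hc : 0 < c) :
    Tendsto (fun a : ℕ => ((a : ℝ) + 1) / xx c a) atTop (𝓝 0) := by
  have h1 : Tendsto (fun a : ℕ => ((a : ℝ) + 1) ^ 3 / (2 * c * a.factorial)) atTop (𝓝 0) := by
    have h8 := (FloorSemiring.tendsto_pow_div_factorial_atTop (8 : ℝ)).const_mul (1 / (2 * c))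
    rw [mul_zero] at h8
    refine squeeze_zero (fun a => by positivity) (fun a => ?_) h8
    have h3 : (0 : ℝ) < a.factorial := by exact_mod_cast a.factorial_pos
    have h4 : ((a : ℝ) + 1) ^ 3 ≤ 8 ^ a := by
      have : (a : ℝ) + 1 ≤ 2 ^ a := by
        have := Nat.lt_two_pow_self (n := a)
        exact_mod_cast this
      calc ((a : ℝ) + 1) ^ 3 ≤ (2 ^ a) ^ 3 := by
            apply pow_le_pow_left₀ (by positivity) this
        _ = 8 ^ a := by rw [← pow_mul, mul_comm, pow_mul]; norm_num
    calc ((a : ℝ) + 1) ^ 3 / (2 * c * a.factorial) ≤ 8 ^ a / (2 * c * a.factorial) := by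
          apply div_le_div_of_nonneg_right h4 (by positivity)
      _ = 1 / (2 * c) * (8 ^ a / a.factorial) := by field_simp
  have h2 := h1.rpow_const (p := (1 / 3 : ℝ)) (Or.inr (by norm_num))
  rw [Real.zero_rpow (by norm_num)] at h2
  refine h2.congr (fun a => ?_)
  have h3 : (0 : ℝ) < a.factorial := by exact_mod_cast a.factorial_pos
  rw [Real.div_rpow (by positivity) (by positivity)]
  congr 1
  rw [← Real.rpow_natCast, ← Real.rpow_mul (by positivity)]
  norm_num

lemma inv_xx {c : ℝ} (hc : 0 < c) : Tendsto (fun a : ℕ => 1 / xx c a) atTop (𝓝 0) := by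
  refine squeeze_zero (fun a => ?_) (fun a => ?_) (succ_div_xx hc)
  · have := xx_pos hc a
    positivity
  · apply div_le_div_of_nonneg_right _ (xx_pos hc a).le
    have : (0 : ℝ) ≤ a := by positivity
    linarith

lemma xx_atTop {c : ℝ} (hc : 0 < c) : Tendsto (fun a : ℕ => xx c a) atTop atTop := by
  have h : Tendsto (fun a : ℕ => (xx c a)⁻¹) atTop (𝓝[>] 0) := by
    rw [tendsto_nhdsWithin_iff]
    refine ⟨by simpa using inv_xx hc, Eventually.of_forall (fun a => ?_)⟩
    exact inv_pos.mpr (xx_pos hc a)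
  have := h.inv_tendsto_nhdsGT_zero
  refine this.congr (fun a => ?_)
  simp

lemma floor_div {c : ℝ} (hc : 0 < c) :
    Tendsto (fun a : ℕ => (⌊xx c a⌋₊ : ℝ) / xx c a) atTop (𝓝 1) :=
  (tendsto_nat_floor_div_atTop (R := ℝ)).comp (xx_atTop hc)

lemma main_tendsto {c : ℝ} (hc : 0 < c) :
    Tendsto (fun a : ℕ => q (gr a ⌊xx c a⌋₊)) atTop (𝓝 (1 / (1 + c))) := by
  have h1 := floor_div hc
  have h2 := succ_div_xx hc
  have h3 := inv_xx hc
  have h4 : Tendsto (fun a : ℕ => ((⌊xx c a⌋₊ : ℝ) / xx c a) *
      ((((a : ℝ) + 1) / xx c a + (⌊xx c a⌋₊ : ℝ) / xx c a) ^ 2 +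
        (((a : ℝ) + 1) / xx c a + (⌊xx c a⌋₊ : ℝ) / xx c a) * (1 / xx c a) +
        (1 / xx c a) * (1 / xx c a)) * c) atTop (𝓝 (1 * ((0 + 1) ^ 2 + (0 + 1) * 0 + 0 * 0) * c)) :=
    (h1.mul ((((h2.add h1).pow 2).add ((h2.add h1).mul h3)).add (h3.mul h3))).mul_const c
  have h5 : Tendsto (fun a : ℕ => 1 / (1 + ((⌊xx c a⌋₊ : ℝ) / xx c a) *
      ((((a : ℝ) + 1) / xx c a + (⌊xx c a⌋₊ : ℝ) / xx c a) ^ 2 +
        (((a : ℝ) + 1) / xx c a + (⌊xx c a⌋₊ : ℝ) / xx c a) * (1 / xx c a) +
        (1 / xx c a) * (1 / xx c a)) * c)) atTop (𝓝 (1 / (1 + c))) := by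
    have e : (1 : ℝ) * ((0 + 1) ^ 2 + (0 + 1) * 0 + 0 * 0) * c = c := by ring
    rw [e] at h4
    exact tendsto_const_nhds.div (tendsto_const_nhds.add h4) (by positivity)
  refine h5.congr' ?_
  have h6 := (xx_atTop hc).eventually_ge_atTop 2
  filter_upwards [h6] with a ha
  have hk : 2 ≤ ⌊xx c a⌋₊ := Nat.le_floor (by exact_mod_cast ha)
  rw [q_eq a _ hk]
  have hx := xx_pos hc a
  have hx3 := xx_cube hc a
  have h7 : (0 : ℝ) < a.factorial := by exact_mod_cast a.factorial_pos
  congr 2
  have e : (2 * (a.factorial : ℝ)) = xx c a ^ 3 / c := by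
    rw [hx3]
    field_simp
  rw [e]
  field_simp

lemma dense_aux {l : ℝ} (h0 : 0 < l) (h1 : l < 1) {ε : ℝ} (hε : 0 < ε) (N : ℕ) :
    ∃ G : LGraph, N ≤ Nat.card G.V ∧ |q G - l| < ε := by
  have hc : 0 < (1 - l) / l := div_pos (by linarith) h0
  have h := main_tendsto hc
  have e : 1 / (1 + (1 - l) / l) = l := by
    field_simp
    ring
  rw [e] at h
  have h2 := (Metric.tendsto_nhds.mp h) ε hε
  obtain ⟨a, ha, hN⟩ := (h2.and (eventually_ge_atTop N)).exists
  refine ⟨gr a ⌊xx ((1 - l) / l) a⌋₊, ?_, ?_⟩
  · show N ≤ Nat.card (C a _ ⊕ Fin _)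
    rw [Nat.card_eq_fintype_card]
    simp
    omega
  · rw [Real.dist_eq] at ha
    exact ha

lemma q_mem (G : LGraph) : q G ∈ Set.Icc (0 : ℝ) 1 := by
  haveI := G.fin
  haveI : Finite (G.V → G.V) := Pi.finite
  unfold q
  constructor
  · positivity
  · apply div_le_one_of_le₀ _ (by positivity)
    have : Nat.card {f : G.V → G.V // IsAut G f} ≤ Nat.card {f : G.V → G.V // IsEnd G f} := by
      apply Nat.card_le_card_of_injective
        (fun f : {f : G.V → G.V // IsAut G f} =>
          (⟨f.1, fun x y hxy => (f.2.2 x y).mp hxy⟩ : {f : G.V → G.V // IsEnd G f}))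
      intro f g hfg
      exact Subtype.ext (congrArg (fun t => t.1) hfg)
    exact_mod_cast this

/-- The limiting set of the ratios `|Aut(G)| / |End_s(G)|` is the whole interval `[0,1]`. -/
theorem result : Lam = Set.Icc (0 : ℝ) 1 := by
  apply Set.Subset.antisymm
  · rintro l ⟨G, -, hG⟩
    exact isClosed_Icc.mem_of_tendsto hG (Eventually.of_forall (fun k => q_mem (G k)))
  · rintro l ⟨h0, h1⟩
    have key : ∀ m : ℕ, ∃ G : LGraph, m ≤ Nat.card G.V ∧ |q G - l| < 2 * (1 / ((m : ℝ) + 1)) := by
      intro m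
      have hd : (0 : ℝ) < 1 / ((m : ℝ) + 1) := by positivity
      have hd1 : 1 / ((m : ℝ) + 1) ≤ 1 := by
        rw [div_le_one (by positivity)]
        have : (0 : ℝ) ≤ m := by positivity
        linarith
      set δ := 1 / ((m : ℝ) + 1) with hδ
      have hm : |l + (1 / 2 - l) * (δ / 2) - l| ≤ δ := by
        rw [abs_le]
        constructor <;> nlinarith
      obtain ⟨G, hG1, hG2⟩ := dense_aux (l := l + (1 / 2 - l) * (δ / 2)) (by nlinarith)
        (by nlinarith) hd m
      refine ⟨G, hG1, ?_⟩
      have := abs_sub_le (q G) (l + (1 / 2 - l) * (δ / 2)) l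
      linarith
    choose G hG1 hG2 using key
    refine ⟨G, tendsto_atTop_mono hG1 tendsto_id, ?_⟩
    rw [tendsto_iff_dist_tendsto_zero]
    have ht : Tendsto (fun n : ℕ => 2 * (1 / ((n : ℝ) + 1))) atTop (𝓝 (2 * 0)) :=
      tendsto_one_div_add_atTop_nhds_zero_nat.const_mul 2
    rw [mul_zero] at ht
    refine squeeze_zero (fun _ => dist_nonneg) (fun m => ?_) ht
    rw [Real.dist_eq]
    exact (hG2 m).le

end Pool.Agent.Results.MP_e2735d_co.LimitingSet
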